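import Pool.Agent.H45.UZ.TarF

/-!
# Module FR3 of the board uz_modules: (b3) for the free system
-/

set_option linter.unusedVariables false

open Ordinal Order Set
open scoped ZFSet

namespace SE.UZ

open SF

theorem pf_FR3 (h1 : T_FR1) (h3 : T_FR3a) (hm : T_FRm) : T_FR3 := by
  intro D κ hA b hb I F hF hOf Z hZ
  obtain ⟨B1, hB1, hRi, hnew⟩ := hb.bd I F hF Z hZ
  have hle : ∀ v ∈ I, b.Le (app F v) B1 := fun v hv => (hb.rc _ _ (hRi v hv)).1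
  have hB1o : b.Of D B1 := (h1 D κ hA b hb).2.1 I F hF hOf B1 hB1 hle
    (fun k hk hkv => (hnew k hk hkv).1)
  obtain ⟨B, hBo, hBR, hF1, hF2, hBn⟩ := h3 D κ hA b hb B1 hB1o Z hZ
  obtain ⟨hB1B, hBR'⟩ := hb.rc _ _ hBR
  refine ⟨B, hBo, ?_, ?_⟩
  · intro v hv
    exact ⟨hBR' _ (hle v hv), hm D κ hA b hb (app F v) B1 B (hle v hv) hB1o hB1B hF1 hF2⟩
  · intro k hk hkv
    by_cases hk1 : k ∈ b.u B1
    · obtain ⟨⟨e, he, hke⟩, hkZ⟩ := hnew k hk1 hkv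
      exact ⟨⟨e, he.trans (Nat.lt_succ_self _), hke⟩, hkZ⟩
    · exact hBn k hk hk1

end SE.UZ
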