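import Pool.Agent.H45.UZ.TarP

/-!
# Module POA of the board uz_modules: closed objects and faces
-/

set_option linter.unusedVariables false

open Ordinal Order Set
open scoped ZFSet

namespace SE.UZ

open SF

namespace H85POA

theorem obs_of {D : Cx} {κ : V} {b : BS} (hb : b.Ok D κ) {B : V} (hB : b.Obs B) {C : V}
    (hC : b.Le C B) (h : ∀ j ∈ b.u C, b.Co j → vw j ⊆ b.u C) : b.Obs C := by
  obtain ⟨hCo, _, hCB⟩ := hb.leO C B hC
  refine ⟨hCo, ?_⟩
  intro j hj hjc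
  obtain ⟨h1, ⟨A, hA, hAu⟩, h3⟩ := hB.v j (hCB hj) hjc
  exact ⟨h1, ⟨A, hb.sub A C B hA hC (by rw [hAu]; exact h j hj hjc), hAu⟩, h3⟩

theorem of_obs {D : Cx} {κ : V} {b : BS} (hb : b.Ok D κ) {C : V} (hC : b.Obs C) :
    ∀ j ∈ b.u C, b.Co j → vw j ⊆ b.u C := by
  intro j hj hjc
  obtain ⟨_, ⟨A, hA, hAu⟩, _⟩ := hC.v j hj hjc
  rw [← hAu]
  exact (hb.leO A C hA).2.2

end H85POA

open H85POA in
theorem pf_POA : T_POA := by
  intro D κ hA b hb B hB
  refine ⟨fun C hC => ⟨fun h => of_obs hb h, fun h => obs_of hb hB hC h⟩, ?_, ?_⟩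
  · intro C C' E hC hC' hCo hCo' hE hEu
    have e1 : b.u E ⊆ b.u C := by
      rw [hEu]
      intro x hx
      exact (ZFSet.mem_inter.1 hx).1
    have e2 : b.u E ⊆ b.u C' := by
      rw [hEu]
      intro x hx
      exact (ZFSet.mem_inter.1 hx).2
    refine ⟨?_, hb.sub E C B hE hC e1, hb.sub E C' B hE hC' e2⟩
    refine obs_of hb hB hE ?_
    intro j hj hjc
    rw [hEu]
    intro x hx
    exact ZFSet.mem_inter.2 ⟨of_obs hb hCo j (e1 hj) hjc hx, of_obs hb hCo' j (e2 hj) hjc hx⟩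
  · intro j hj hjc
    obtain ⟨_, ⟨A, hAB, hAu⟩, h3⟩ := hB.v j hj hjc
    obtain ⟨hAo, _, hAs⟩ := hb.leO A B hAB
    have hcs : CS D (vw j) := by
      rw [← hAu]
      exact hb.cs A hAo
    refine ⟨⟨A, hAB, hAu, obs_of hb hB hAB ?_⟩, ?_, ?_, ?_, ?_, hcs, ?_⟩
    · intro k hk hkc
      rw [hAu] at hk ⊢
      exact h3 k hk hkc
    · rw [← hAu]
      exact hAs
    · intro h
      exact lt_irrefl _ (rank_vw_lt h)
    · exact hA.ok.zfc.toZFCm.toZFm.trans _ hA.ok.hN _ hcs.h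
    · intro i hi
      exact (hcs.c i hi).2
    · intro k hk
      exact rank_vw_lt hk

end SE.UZ
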