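import Pool.Agent.H38.UZ.TarZ

/-!
# Module Y8b of the board uz_modules: existence of candidates (beta)
-/

set_option linter.unusedVariables false

open Ordinal Order Set
open scoped ZFSet

namespace SE.UZ

open SF

theorem pf_Y8b (h3 : T_Y3) (hR : T_ZR) (hW : T_ZW) (hE : T_ZE) (hLL : T_LL) (hP2 : T_PW2)
    (hM : T_QRM) (hQ : T_QRN) : T_Y8b := by
  intro D κ b hA hb I F Z ξ0 v0 w0 hPas ξ hξ q hPg Z' hAv I1 F1 hPts u hBnd G hG hGnr X hX hnX hd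
    hn hp
  have hok := hA.ok
  have hsξ : insert ξ ξ ∈ κ := hA.suc ξ hξ
  have hr : D.N (b.rho D ξ).toZFSet := ((hR D κ b hA hb).2.2.2.2.2.1 ξ hξ).2.2.1
  -- worlds
  obtain ⟨⟨oU, obU, csU, hhU, nU, tU, cU, nBU, nhU, hiU, vU⟩, -⟩ := hW D κ b hA hb _ _ _ hBnd.w.w
  obtain ⟨⟨oQ, obQ, csQ, hhQ, nQ, tQ, cQ, nBQ, nhQ, hiQ, vQ⟩, wQ⟩ := hW D κ b hA hb _ _ _ hPg.w.w
  have leq : b.u (fst q) ⊆ b.u (fst u) := (hb.leO _ _ hBnd.lq.1.le).2.2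
  -- `X` is of type `N` over `q`
  have hPI := (hLL D κ b (b.rho D ξ) ⟨hA, hb, hr⟩).2.2.1
  have hnq := ((hPI _ _ _ _ hPg.w.w hBnd.w.w hBnd.lq.1 G hG X hX).2.1).2 hn
  have hdq : ¬ Dcc (snd q) G X := fun hdd => hd
    (((hE D κ b hA hb _ _ _ _ _ _ _ hiQ hiU hBnd.lq.1).2 _ nU cU (fun i hi => hi) G hG).2.2.2.2.2.2.1
      X hdd le_rfl)
  obtain ⟨x, hx, y, hy, hny, hky, hsy⟩ := hGnr.i X hX hdq hnq
  have hV := hPts.p x hx
  obtain ⟨⟨oV, obV, csV, hhV, nV, tV, cV, nBV, nhV, hiV, vV⟩, -⟩ := hW D κ b hA hb _ _ _ hV.w.w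
  have leV : b.u (fst (app F1 x)) ⊆ b.u (fst u) := (hb.leO _ _ (hBnd.lp x hx).le).2.2
  have hyu : RR D (b.u (fst u)) G y :=
    ((hE D κ b hA hb _ _ _ _ _ _ _ hiV hiU (hBnd.lp x hx)).2 _ nU cU (fun i hi => hi) G hG).1 y hy
  refine ⟨y, hyu, ⟨hX, hnX, hd, hn, hp, hny, ?_, ?_⟩⟩
  · intro hk
    exact hky ((hP2 D κ hA b hb).2 _ _ _ _ _ _ G X y le_rfl hV.w.w hBnd.w.w (hBnd.lp x hx) hG hk)
  · intro j hj hco hsn
    obtain ⟨hs1, hs2⟩ := hsn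
    -- a set of labels `b.u B` of a world with `j ∈ b.u B`
    have key : ∀ (σ : Ordinal.{0}) (B h : V), b.Wd D σ B h → b.u B ⊆ b.u (fst u) → j ∈ b.u B →
        (RR D (b.u B) G X ∧ RR D (b.u B) G y) ∧ D.N (b.u B) ∧ Tr (b.u B) := by
      intro σ B h w hs hjB
      obtain ⟨⟨-, -, -, -, n1, t1, -, -, -, -, v1⟩, w1⟩ := hW D κ b hA hb σ B h w
      obtain ⟨a1, a2, a3, -, -⟩ := v1 j hjB hco
      have := ((w1 _ nU cU hs G hG).2.2.2.2.2.2.2.2.1 (vw j) a2 a1 a3).2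
      exact ⟨⟨this _ hs1, this _ hs2⟩, n1, t1⟩
    rcases hBnd.m j hj with h | ⟨x', hx', h⟩ | ⟨v, hv, h⟩ | ⟨hξ0, he, h⟩ | ⟨⟨e, he, hke⟩, -⟩
    · exact hny (key _ _ _ hPg.w.w leq h).1.2
    · by_cases hxx : x = x'
      · subst hxx
        exact hsy j h hco ⟨hs1, hs2⟩
      · have leV' : b.u (fst (app F1 x')) ⊆ b.u (fst u) :=
          (hb.leO _ _ (hBnd.lp x' hx').le).2.2
        obtain ⟨⟨-, k2⟩, k3, k4⟩ := key _ _ _ (hPts.p x' hx').w.w leV' h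
        have := hM D hok _ G _ _ nU cU hG nV k3 leV leV' tV k4 y hy k2
        rw [hPts.d x hx x' hx' hxx] at this
        exact hny this
    · have leK : b.u (tK (app F v) (insert ξ ξ)) ⊆ b.u (fst u) :=
        (hb.leO _ _ (hBnd.lt v hv).le).2.2
      exact hnX v hv (key _ _ _ ((hPas.t v hv).w _ hsξ).w leK h).1.1
    · have leW : b.u (fst w0) ⊆ b.u (fst u) := (hb.leO _ _ (hBnd.lv hξ0 he).le).2.2
      obtain ⟨⟨-, k2⟩, k3, k4⟩ := key _ _ _ (hPas.v hξ0).2.1.w leW h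
      have h1 := hM D hok _ G _ _ nU cU hG k3 nV leW leV k4 tV y k2 hy
      have hsub : b.u (fst w0) ∩ b.u (fst (app F1 x)) ⊆ b.u (fst q) :=
        (h3 D κ b hA hb I F Z ξ0 v0 w0 hPas ξ hξ q hPg Z' hAv I1 F1 hPts _ rfl).2.2.2.2.2.2
          hξ0 he x hx
      have t1 : Tr (b.u (fst w0) ∩ b.u (fst (app F1 x))) := by
        intro i hi
        rw [ZFSet.mem_inter] at hi
        intro k hk
        rw [ZFSet.mem_inter]
        exact ⟨k4 i hi.1 hk, tV i hi.2 hk⟩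
      have n1 : D.N (b.u (fst w0) ∩ b.u (fst (app F1 x))) :=
        (Tm.inter (Tm.var 0) (Tm.var 1)).1 D.N hok.zfc.toZFCm.toZFm
          (cons (b.u (fst w0)) (cons (b.u (fst (app F1 x))) fun _ => b.u (fst (app F1 x))))
          (In.cons (In.cons (fun _ => nV) nV) k3)
      exact hny ((hQ D hok _ G _ nU cU hG n1 (fun i hi => leq (hsub hi)) t1).2.2.2.2.2.2.2.1 _ nQ
        hsub leq tQ y h1)
    · exact (ne_of_lt he) (nS_inj.1 (hke.symm.trans hco))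

end SE.UZ
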