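import Pool.Agent.H38.UZ.TarZ

/-!
# Module ZE of the board uz_modules: faces and generic filters on larger sets of labels
-/

set_option linter.unusedVariables false

open Ordinal Order Set
open scoped ZFSet

namespace SE.UZ

open SF

theorem ze_N {D : Cx} {κ : V} (hA : Amb D κ) {b : BS} (hb : b.Ok D κ) {B : V} (hB : B ∈ b.Ob) :
    D.N (b.u B) ∧ Cld D.L (b.u B) ∧ Tr (b.u B) :=
  ⟨hA.ok.zfc.trans _ hA.ok.hN _ (hb.cs B hB).h, (hb.cs B hB).c,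
    fun i hi => ((hb.cs B hB).c i hi).2⟩

theorem ze_dm {L ρ q : V} (hq : q ∈ Pos L ρ) : dm q ⊆ ρ := by
  intro i hi
  rw [mem_dm] at hi
  obtain ⟨y, hy⟩ := hi
  have h1 := (ZFSet.mem_sep.1 hq).1
  have h2 := (ZFSet.mem_sep.1 h1).1
  exact (ZFSet.pair_mem_prod.1 ((ZFSet.mem_powerset.1 h2) hy)).1

/-- the secured facts of a face -/
theorem ze_se (hQ : T_QRN) (hL : T_BL) (hK : T_BK) {D : Cx} {κ : V} (hA : Amb D κ) {b : BS}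
    (hb : b.Ok D κ) {C B ρ G : V} (hle : b.Le C B) (nρ : D.N ρ) (cρ : Cld D.L ρ)
    (hs : b.u B ⊆ ρ) (hG : D.Gn ρ G) {a x : V} (h : b.Se C G a x) : b.Se B G a x := by
  have hok := hA.ok
  obtain ⟨hC, hB, sCB⟩ := hb.leO _ _ hle
  obtain ⟨nC, cC, tC⟩ := ze_N hA hb hC
  obtain ⟨nB, cB, tB⟩ := ze_N hA hb hB
  have sC : b.u C ⊆ ρ := fun i hi => hs (sCB hi)
  obtain ⟨g0, s0, -, m0, -, -, r0⟩ := (hL D hok ρ G nρ cρ hG).2 (b.u B) nB hs tB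
  obtain ⟨p, hp, a', x', hz, ha, hx⟩ := h
  obtain ⟨-, hpP, ⟨na1, na2⟩, nx, nx'⟩ := hb.sc _ _ _ _ hz
  have hp0 : p ∈ gs G (b.u B) := (m0 p).2 ⟨hp, fun i hi => sCB (ze_dm hpP hi)⟩
  have ea : ev (gs G (b.u B)) a' = ev G a' :=
    ((hK D hok ρ G nρ cρ hG).1 (b.u C) a' nC sC tC na1 na2).2.2.2.2.2 (b.u B) sCB
  have ex : ev (gs G (b.u B)) x' = ev G x' :=
    ((hK D hok ρ G nρ cρ hG).1 (b.u C) x' nC sC tC nx nx').2.2.2.2.2 (b.u B) sCB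
  have hS0 : b.Se C (gs G (b.u B)) a x := ⟨p, hp0, a', x', hz, by rw [ea, ha], by rw [ex, hx]⟩
  have q0 := (hQ D hok (b.u B) (gs G (b.u B)) (b.u C) nB cB g0 nC sCB tC).1
  have ra : RR D (b.u C) (gs G (b.u B)) a := (q0 a).2 ⟨a', na1, na2, by rw [ea, ha]⟩
  have rx : RR D (b.u C) (gs G (b.u B)) x := (q0 x).2 ⟨x', nx, nx', by rw [ex, hx]⟩
  obtain ⟨p1, hp1, a1, x1, hz1, ha1, hx1⟩ := (hb.ab C B hle _ g0 a x ra rx).1 hS0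
  obtain ⟨-, -, ⟨n1, n2⟩, n3, n4⟩ := hb.sc _ _ _ _ hz1
  have e1 := ((hK D hok ρ G nρ cρ hG).1 (b.u B) a1 nB hs tB n1 n2).2.2.2.2.2 (b.u B)
    (fun i hi => hi)
  have e2 := ((hK D hok ρ G nρ cρ hG).1 (b.u B) x1 nB hs tB n3 n4).2.2.2.2.2 (b.u B)
    (fun i hi => hi)
  exact ⟨p1, s0 hp1, a1, x1, hz1, by rw [← e1, ha1], by rw [← e2, hx1]⟩

theorem pf_ZE (hPHA : T_PHA) (hQ : T_QRN) (hL : T_BL) (hK : T_BK) : T_ZE := by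
  intro D κ b hA hb σ σ1 σ2 C h0 B h H0 H1 L
  have hok := hA.ok
  obtain ⟨hC, hB, sCB⟩ := hb.leO _ _ L.le
  obtain ⟨nC, cC, tC⟩ := ze_N hA hb hC
  obtain ⟨nB, cB, tB⟩ := ze_N hA hb hB
  refine ⟨⟨hC, hB, sCB, nC, tC⟩, ?_⟩
  intro ρ nρ cρ hs G hG
  have sC : b.u C ⊆ ρ := fun i hi => hs (sCB hi)
  obtain ⟨g0, s0, -, m0, -, -, r0⟩ := (hL D hok ρ G nρ cρ hG).2 (b.u B) nB hs tB
  obtain ⟨gC, -, -, -, -, -, -⟩ := (hL D hok ρ G nρ cρ hG).2 (b.u C) nC sC tC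
  have rC : gs (gs G (b.u B)) (b.u C) = gs G (b.u C) := r0 _ sCB
  have i1 : ∀ x, RR D (b.u C) G x → RR D (b.u B) G x :=
    (hQ D hok ρ G (b.u C) nρ cρ hG nC sC tC).2.2.2.2.2.2.2.1 (b.u B) nB sCB hs tB
  have aC := (hPHA D hok (b.u C) ρ h0 σ1 nC cC nρ cρ sC H0).1 G hG
  have aC0 := (hPHA D hok (b.u C) (b.u B) h0 σ1 nC cC nB cB sCB H0).1 _ g0
  have aB := (hPHA D hok (b.u B) ρ h σ2 nB cB nρ cρ hs H1).1 G hG
  have i3 : ∀ X, RR D (b.u C) G X → ∀ y e, e < σ → (Ent h0 G X y e ↔ Ent h G X y e) := by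
    intro X hX y e he
    have hX0 : RR D (b.u C) (gs G (b.u B)) X := by
      unfold RR at hX ⊢
      rw [rC]
      exact hX
    have k1 := L.e _ g0 X hX0 y e
    have k2 := (aC.1 X y e).1
    have k3 := (aC0.1 X y e).1
    have k4 := (aB.1 X y e).1
    rw [rC] at k3
    rw [k2, ← k3, k4]
    exact ⟨fun q => (k1.1 ⟨q, he⟩).1, fun q => (k1.2 ⟨q, he⟩).1⟩
  have i4 : ∀ X y e, Ent h0 G X y e → e < σ → Ent h G X y e := fun X y e q he =>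
    (i3 X ((aC.1 X y e).2 q).1 y e he).1 q
  refine ⟨i1, rC, gC, i3, i4, ?_, ?_, ?_, ?_⟩
  · intro X hX y e he q
    exact ((aC.1 X y e).2 ((i3 X hX y e he).2 q)).2.1
  · rintro X ⟨y, e, q⟩ hσ
    exact ⟨y, e, i4 X y e q (lt_of_lt_of_le ((aC.1 X y e).2 q).2.2.1 hσ)⟩
  · rintro X hX ⟨y, e, q⟩ hσ
    exact ⟨y, e, (i3 X hX y e (lt_of_lt_of_le ((aB.1 X y e).2 q).2.2.1 hσ)).2 q⟩
  · rintro X y ⟨a, x, ha, hx, hX, v, hv, hS⟩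
    exact ⟨a, x, ha, hx, hX, v, i1 v hv, ze_se hQ hL hK hA hb L.le nρ cρ hs hG hS⟩

end SE.UZ
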